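import Mathlib

set_option autoImplicit false

open Filter Topology
open scoped ENNReal NNReal ComplexConjugate

namespace Pool.Agent.W634.S384

theorem exists_eigenvalue {X : Type*} [NormedAddCommGroup X] [NormedSpace ℂ X] [CompleteSpace X]
    (T : X →L[ℂ] X) (hT : IsCompactOperator T) (B : X → X → ℂ) (M : ℝ)
    (hadd : ∀ x y z, B x (y + z) = B x y + B x z) (hsmul : ∀ (c : ℂ) x y, B x (c • y) = c * B x y)
    (hconj : ∀ x y, starRingEnd ℂ (B x y) = B y x) (hpos : ∀ x, 0 ≤ (B x x).re)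
    (hM : ∀ x, (B x x).re ≤ M * ‖x‖ ^ 2) (hsymm : ∀ x y, B (T x) y = B x (T y))
    (x₀ : X) (hx₀ : B (T x₀) (T x₀) ≠ 0) :
    ∃ μ : ℂ, μ ≠ 0 ∧ ∃ x : X, x ≠ 0 ∧ T x = μ • x := by
  -- the Cauchy-Schwarz inequality
  let core : PreInnerProductSpace.Core ℂ X :=
    { inner := B
      conj_inner_symm := fun x y => hconj y x
      re_inner_nonneg := fun x => hpos x
      add_left := fun x y z => by
        rw [← hconj z (x + y), hadd, map_add, hconj, hconj]
      smul_left := fun x y r => by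
        rw [← hconj y (r • x), hsmul, map_mul, hconj] }
  have hcs : ∀ x y : X, ‖B x y‖ * ‖B y x‖ ≤ (B x x).re * (B y y).re := fun x y =>
    @InnerProductSpace.Core.inner_mul_inner_self_le ℂ X _ _ _ core x y
  have hcs' : ∀ x y : X, ‖B x y‖ ^ 2 ≤ (B x x).re * (B y y).re := by
    intro x y
    have h := hcs x y
    have h2 : ‖B y x‖ = ‖B x y‖ := by rw [← hconj x y, RCLike.norm_conj]
    rw [h2] at h
    rw [sq]; exact h
  have hreal : ∀ x : X, B x x = ((B x x).re : ℂ) := by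
    intro x
    have h := hconj x x
    exact (Complex.conj_eq_iff_re.mp h).symm
  set b : ℕ → ℝ := fun n => (B ((T ^ n) x₀) ((T ^ n) x₀)).re with hb
  have hb0 : ∀ n, 0 ≤ b n := fun n => hpos _
  have hstep : ∀ n, b (n + 1) ^ 2 ≤ b n * b (n + 2) := by
    intro n
    have h := hcs' ((T ^ n) x₀) ((T ^ (n + 2)) x₀)
    have h2 : B ((T ^ n) x₀) ((T ^ (n + 2)) x₀) = B ((T ^ (n + 1)) x₀) ((T ^ (n + 1)) x₀) := by
      have e1 : (T ^ (n + 1)) x₀ = T ((T ^ n) x₀) := by
        rw [pow_succ']; rfl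
      have e2 : (T ^ (n + 2)) x₀ = T ((T ^ (n + 1)) x₀) := by
        rw [pow_succ']; rfl
      rw [e2, ← hsymm, ← e1]
    rw [h2, hreal] at h
    have h3 : ‖(((B ((T ^ (n + 1)) x₀) ((T ^ (n + 1)) x₀)).re : ℝ) : ℂ)‖ = b (n + 1) := by
      rw [Complex.norm_real, Real.norm_of_nonneg (hb0 (n + 1))]
    rw [h3] at h
    exact h
  have hb1 : 0 < b 1 := by
    have h : b 1 ≠ 0 := by
      intro h0
      apply hx₀
      have : B (T x₀) (T x₀) = ((b 1 : ℝ) : ℂ) := by
        rw [hreal]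
        simp [hb]
      rw [this, h0]; simp
    exact lt_of_le_of_ne (hb0 1) (Ne.symm h)
  have hb00 : 0 < b 0 := by
    rcases (hb0 0).lt_or_eq with h | h
    · exact h
    · exfalso
      have := hstep 0
      rw [← h] at this
      simp at this
      linarith [hb1, this.symm ▸ hb1]
  set r : ℝ := b 1 / b 0 with hr
  have hrpos : 0 < r := div_pos hb1 hb00
  have hind : ∀ n, 0 < b n ∧ r * b n ≤ b (n + 1) := by
    intro n
    induction n with
    | zero =>
      refine ⟨hb00, ?_⟩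
      rw [hr]
      field_simp
      exact le_refl _
    | succ n ih =>
      obtain ⟨h1, h2⟩ := ih
      have h3 : 0 < b (n + 1) := lt_of_lt_of_le (mul_pos hrpos h1) h2
      refine ⟨h3, ?_⟩
      have h4 := hstep n
      have h5 : r * b n * b (n + 1) ≤ b (n + 1) ^ 2 := by nlinarith
      have h6 : b n * (r * b (n + 1)) ≤ b n * b (n + 2) := by nlinarith
      exact le_of_mul_le_mul_left h6 h1
  have hlow : ∀ n, b 0 * r ^ n ≤ b n := by
    intro n
    induction n with
    | zero => simp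
    | succ n ih =>
      have h2 := (hind n).2
      calc b 0 * r ^ (n + 1) = r * (b 0 * r ^ n) := by ring
        _ ≤ r * b n := mul_le_mul_of_nonneg_left ih hrpos.le
        _ ≤ b (n + 1) := h2
  have hup : ∀ n, b n ≤ M * (‖T ^ n‖ ^ 2 * ‖x₀‖ ^ 2) := by
    intro n
    have h1 := hM ((T ^ n) x₀)
    have hMn : 0 ≤ M := by
      by_contra hneg
      push Not at hneg
      have h2 := hM x₀
      have h3 : 0 < (B x₀ x₀).re := by simpa [hb] using hb00
      nlinarith [sq_nonneg ‖x₀‖]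
    have h2 : ‖(T ^ n) x₀‖ ≤ ‖T ^ n‖ * ‖x₀‖ := (T ^ n).le_opNorm x₀
    calc b n ≤ M * ‖(T ^ n) x₀‖ ^ 2 := h1
      _ ≤ M * (‖T ^ n‖ * ‖x₀‖) ^ 2 := by gcongr
      _ = _ := by ring
  -- spectral radius is positive
  have hx0 : x₀ ≠ 0 := by
    rintro rfl
    apply hx₀
    have : B (T 0) (T 0) = B (T 0) ((0 : ℂ) • T 0) := by simp
    rw [this, hsmul]; simp
  have : Nontrivial X := ⟨⟨x₀, 0, hx0⟩⟩
  have hMpos : 0 < M := by
    by_contra hneg
    push Not at hneg
    have h2 := hM x₀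
    have h3 : 0 < (B x₀ x₀).re := by simpa [hb] using hb00
    nlinarith [sq_nonneg ‖x₀‖]
  set c : ℝ := b 0 / (M * ‖x₀‖ ^ 2) with hc
  have hxn : 0 < ‖x₀‖ := norm_pos_iff.mpr hx0
  have hcpos : 0 < c := by positivity
  have hT2 : ∀ n, c * r ^ n ≤ ‖T ^ n‖ ^ 2 := by
    intro n
    have h1 := (hlow n).trans (hup n)
    have h2 : 0 < M * ‖x₀‖ ^ 2 := by positivity
    rw [hc]
    rw [div_mul_eq_mul_div, div_le_iff₀ h2]
    calc b 0 * r ^ n ≤ M * (‖T ^ n‖ ^ 2 * ‖x₀‖ ^ 2) := h1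
      _ = _ := by ring
  have hlim := spectrum.pow_norm_pow_one_div_tendsto_nhds_spectralRadius T
  have hspec : spectralRadius ℂ T ≠ 0 := by
    intro h0
    rw [h0] at hlim
    -- eventually the quantity is below ofReal (min ...)
    set δ : ℝ := Real.sqrt r / 2 with hδ
    have hδpos : 0 < δ := by positivity
    have hev := hlim.eventually (gt_mem_nhds (show (0 : ℝ≥0∞) < ENNReal.ofReal δ by simpa using hδpos))
    obtain ⟨N, hN⟩ := eventually_atTop.mp hev
    have hkey : ∀ n : ℕ, N ≤ n → 1 ≤ n → c * r ^ n ≤ (r / 4) ^ n := by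
      intro n hn hn1
      have h1 := hN n hn
      rw [ENNReal.ofReal_lt_ofReal_iff hδpos] at h1
      have h2 : ‖T ^ n‖ ≤ δ ^ n := by
        have h3 : (‖T ^ n‖ ^ (1 / (n : ℝ))) ^ n ≤ δ ^ n := by
          apply pow_le_pow_left₀ (by positivity) h1.le
        rwa [← Real.rpow_natCast, ← Real.rpow_mul (norm_nonneg _), one_div,
          inv_mul_cancel₀ (by positivity), Real.rpow_one] at h3
      calc c * r ^ n ≤ ‖T ^ n‖ ^ 2 := hT2 n
        _ ≤ (δ ^ n) ^ 2 := by gcongr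
        _ = (δ ^ 2) ^ n := by rw [← pow_mul, ← pow_mul, mul_comm]
        _ = (r / 4) ^ n := by
            rw [hδ, div_pow, Real.sq_sqrt hrpos.le]; norm_num
    have hkey2 : ∀ n : ℕ, N ≤ n → 1 ≤ n → c ≤ (1 / 4 : ℝ) ^ n := by
      intro n hn hn1
      have h := hkey n hn hn1
      have h2 : (r / 4) ^ n = (1 / 4 : ℝ) ^ n * r ^ n := by
        rw [← mul_pow]; ring_nf
      rw [h2] at h
      exact le_of_mul_le_mul_right h (pow_pos hrpos n)
    have hlim2 : Tendsto (fun n : ℕ => (1 / 4 : ℝ) ^ n) atTop (𝓝 0) :=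
      tendsto_pow_atTop_nhds_zero_of_lt_one (by norm_num) (by norm_num)
    have : c ≤ 0 := by
      apply ge_of_tendsto hlim2
      filter_upwards [eventually_ge_atTop (max N 1)] with n hn
      exact hkey2 n (le_trans (le_max_left _ _) hn) (le_trans (le_max_right _ _) hn)
    linarith
  obtain ⟨μ, hμ, hμ2⟩ := spectrum.exists_nnnorm_eq_spectralRadius T
  have hμ0 : μ ≠ 0 := by
    rintro rfl
    apply hspec
    rw [← hμ2]; simp
  refine ⟨μ, hμ0, ?_⟩
  have hev := (hT.hasEigenvalue_iff_mem_spectrum hμ0).mpr hμ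
  obtain ⟨x, hx⟩ := hev.exists_hasEigenvector
  exact ⟨x, hx.2, hx.apply_eq_smul⟩

end Pool.Agent.W634.S384
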